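import Pool.Agent.H.MP_4a15bf_mp.D

open Filter Topology MeasureTheory Set Real Metric Pool.Agent.H.MP_4a15bf_mp
open scoped ENNReal ContDiff

namespace Pool.Agent.Results.MP_4a15bf_mp.No

/-- `C(W) = sup_t t^(3/2) Tr exp(-t Y_W)`, the trace being the sum over the eigenvalues -/
noncomputable def C (W : E → ℝ) : ℝ≥0∞ :=
  ⨆ (t : ℝ) (_ : 0 < t), .ofReal (t ^ (3 / 2 : ℝ)) * ∑' k : ℕ, .ofReal (exp (-t * eig W k))

/-- `C(1)`: on `S³`, `Y` has the eigenvalues `k(k+2) + 3/4` with multiplicity `(k+1)²` -/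
noncomputable def C₁ : ℝ≥0∞ :=
  ⨆ (t : ℝ) (_ : 0 < t), .ofReal (t ^ (3 / 2 : ℝ)) *
    ∑' k : ℕ, .ofReal (((k : ℝ) + 1) ^ 2 * exp (-t * (k * (k + 2) + 3 / 4)))

theorem result : ∃ W : E → ℝ, ContDiff ℝ ∞ W ∧ (∀ x, 0 < W x) ∧
    ∫ x, W x.1 ^ (3 / 2 : ℝ) ∂σ = σ.real univ ∧ C₁ < C W := by
  obtain ⟨κ, hκ0, hσ, hκ⟩ := zon
  have hπ := pi_pos
  set η : ℝ := 4 * exp (-100005) ^ 2
  have hη : 0 < η := by positivity
  have hW : ∀ c, ContDiff ℝ ∞ (Wt c η) := fun c =>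
    contDiff_const.div (by fun_prop) fun x => by positivity
  have hN := norm_le hκ0 hκ (L := 100005) (by norm_num)
  have hN0 : 0 < ∫ x, Wt 1 η x.1 ^ (3 / 2 : ℝ) ∂σ := by
    have hc : Continuous fun x : sphere (0 : E) 1 => Wt 1 η x.1 ^ (3 / 2 : ℝ) :=
      ((hW 1).continuous.comp continuous_subtype_val).rpow_const fun _ => .inr (by norm_num)
    rw [integral_pos_iff_support_of_nonneg (fun x => by unfold Wt; positivity)
      (hc.integrable_of_hasCompactSupport (.of_compactSpace _)), Function.support_eq_univ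
      fun x => by unfold Wt; positivity]
    exact pos_iff_ne_zero.2 fun h => by simp [Measure.real, h, hκ0.ne', hπ.ne'] at hσ
  obtain ⟨d, hd, hd3⟩ : ∃ d : ℝ, 0 < d ∧ d ^ 3 = κ * (π / 2) / ∫ x, Wt 1 η x.1 ^ (3 / 2 : ℝ) ∂σ :=
    ⟨_, by positivity, rpow_inv_natCast_pow (by positivity) three_ne_zero⟩
  have r32 : ∀ {u : ℝ}, 0 < u → (u ^ 2) ^ (3 / 2 : ℝ) = u ^ 3 := fun {u} hu => by
    rw [← rpow_natCast, ← rpow_mul hu.le, show ((2 : ℕ) : ℝ) * (3 / 2) = (3 : ℕ) by norm_num,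
      rpow_natCast]
  refine ⟨Wt (d ^ 2) η, hW _, fun x => by unfold Wt; positivity, ?_, ?_⟩
  · have : ∀ x, Wt (d ^ 2) η x ^ (3 / 2 : ℝ) = d ^ 3 * Wt 1 η x ^ (3 / 2 : ℝ) := fun x => by
      rw [← r32 hd, ← mul_rpow (by positivity) (by unfold Wt; positivity), Wt, Wt, mul_one_div]
    simp only [this, integral_const_mul]
    rw [hd3, hσ, div_mul_cancel₀ _ hN0.ne']
  have h1 : C₁ ≤ .ofReal 0.65 := iSup₂_le fun t ht => by
    rw [ENNReal.tsum_eq_iSup_nat, ENNReal.mul_iSup]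
    refine iSup_le fun n => ?_
    rw [← ENNReal.ofReal_sum_of_nonneg fun _ _ => by positivity,
      ← ENNReal.ofReal_mul (by positivity)]
    exact ENNReal.ofReal_le_ofReal (rhs ht n)
  refine h1.trans_lt (lt_of_lt_of_le ?_ (le_iSup₂_of_le ((2 * d / 1.0001) ^ 2) (by positivity)
    le_rfl))
  set u : ℝ := π / 100000
  have hu : 0 < u := by positivity
  have hb : 1 + η * exp 100000 ^ 2 ≤ 1.0001 ^ 2 := by
    have : exp (-10) ≤ 0.00005 := ex (by norm_num) 20 (by norm_num)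
      (by norm_num [Finset.sum_range_succ, Nat.factorial])
    rw [mul_assoc, ← mul_pow, ← exp_add, ← exp_nat_mul]
    norm_num at this ⊢
    linarith
  have hs : Summable fun k : ℕ => exp (-u ^ 2 * (((k + 1 : ℕ) : ℝ) + 1) ^ 2) :=
    (summable_nat_add_iff (f := fun k : ℕ => exp (-u ^ 2 * ((k : ℝ) + 1) ^ 2)) 1).2
      (sN' (by positivity))
  have h2 : ∀ k : ℕ, exp (-1) * exp (-u ^ 2 * (((k + 1 : ℕ) : ℝ) + 1) ^ 2) ≤
      exp (-(2 * d / 1.0001) ^ 2 * eig (Wt (d ^ 2) η) k) := fun k => by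
    rw [← exp_add, exp_le_exp, neg_mul, neg_mul, ← neg_add, neg_le_neg_iff]
    refine (mul_le_mul_of_nonneg_left (eig_le hκ0 hκ (by norm_num) (by positivity) hη hb k)
      (by positivity)).trans_eq ?_
    simp only [u]
    push_cast
    field_simp
    ring
  refine lt_of_lt_of_le ?_ (mul_le_mul_right (ENNReal.tsum_le_tsum fun k =>
    ENNReal.ofReal_le_ofReal (h2 k)) _)
  rw [← ENNReal.ofReal_tsum_of_nonneg (fun _ => by positivity) (hs.mul_left _), tsum_mul_left,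
    ← ENNReal.ofReal_mul (by positivity), r32 (by positivity),
    ENNReal.ofReal_lt_ofReal_iff_of_nonneg (by norm_num)]
  have h3 := poisson hu
  rw [(sN' (by positivity)).tsum_eq_zero_add] at h3
  have h4 : √π / u ≤ √π / u * (1 + 2 * ∑' n : ℕ, exp (-(π ^ 2 / u ^ 2) * ((n : ℝ) + 1) ^ 2)) :=
    le_mul_of_one_le_right (by positivity) (le_add_of_nonneg_right (by positivity))
  have h5 : exp (-u ^ 2 * (((0 : ℕ) : ℝ) + 1) ^ 2) ≤ 1 := exp_le_one_iff.2 (by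
    simpa using sq_nonneg u)
  have h6 : 100000 / √π = √π / u := by
    simp only [u]; field_simp; rw [sq_sqrt hπ.le]
  have h7 : 0.36787 ≤ exp (-1) := by linarith [exp_neg_one_gt_d9]
  have h8 : √π * √π / 400024 ≤ d ^ 3 := by
    rw [hd3, mul_self_sqrt hπ.le]
    refine le_trans (le_of_eq ?_) (div_le_div_of_nonneg_left (by positivity) hN0 hN)
    field_simp; norm_num
  generalize ∑' k : ℕ, exp (-u ^ 2 * (((k + 1 : ℕ) : ℝ) + 1) ^ 2) = S at *
  have h9 : (100000 / √π - 3) / 2 ≤ S := by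
    rw [← h3, ← h6] at h4
    generalize exp (-u ^ 2 * (((0 : ℕ) : ℝ) + 1) ^ 2) = X at h4 h5
    linarith
  obtain ⟨p1, p2⟩ := sqpi
  have hq : 0 < √π := by positivity
  calc (0.65 : ℝ) < 8 / 1.0001 ^ 3 * (√π * √π / 400024) * (0.36787 * ((100000 / √π - 3) / 2)) := by
        field_simp; nlinarith
    _ ≤ _ := by
        rw [show (2 * d / 1.0001) ^ 3 = 8 / 1.0001 ^ 3 * d ^ 3 by ring]
        have : 0 ≤ (100000 / √π - 3) / 2 := by
          rw [le_div_iff₀ two_pos, zero_mul, sub_nonneg, le_div_iff₀ hq]; linarith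
        gcongr

end Pool.Agent.Results.MP_4a15bf_mp.No
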